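import Pool.Agent.NH81.Iso.D
/-!
# Convex sets with two circular isoptics are discs

Let `S` be a compact convex set in the plane, `h` its support function. If the isoptic `S_α` is a
circle with centre `c` and radius `R`, then `H(φ) = h(φ) - ⟨c, u(φ)⟩ = R cos ψ(φ)` with
`ψ(φ) + ψ(φ + π - α) = π - α`. So `H` has the period `2 (π - α)`, which is not a multiple of `2 π`,
and its first harmonic vanishes: `c` is the Steiner point of `S`. Hence two circular isoptics are
concentric, and then the two functional equations, together with a common antiperiod of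
`ψ_i - β_i / 2`, force `H` to be constant.
-/
open Set Real Metric
open scoped EuclideanGeometry
open Pool.Agent.NH81.Iso

namespace Pool.Agent.Results.MP_08e0ef_gt.TwoIsoptics

/-- The Euclidean plane. -/
abbrev Plane := EuclideanSpace ℝ (Fin 2)

/-- Circles (of positive radius) in the plane. -/
def IsCircle (A : Set Plane) : Prop := ∃ (c : Plane) (R : ℝ), 0 < R ∧ A = sphere c R

/-- The angles in `(0, π)` at which the isoptic of `S` is a circle. -/
def circularAngles (S : Set Plane) : Set ℝ := {α | α ∈ Ioo 0 π ∧ IsCircle (isoptic S α)}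

lemma sight_preimage (e : ℂ ≃ₗᵢ[ℝ] Plane) (S : Set Plane) (P : ℂ) :
    angleOfSight (e ⁻¹' S) P = angleOfSight S (e P) := by
  unfold angleOfSight
  congr 1
  ext t
  constructor
  · rintro ⟨x, hx, y, hy, rfl⟩
    refine ⟨e x, hx, e y, hy, ?_⟩
    rw [EuclideanGeometry.angle, EuclideanGeometry.angle, vsub_eq_sub, vsub_eq_sub, vsub_eq_sub,
      vsub_eq_sub, ← map_sub, ← map_sub]
    exact (e.toLinearIsometry.angle_map _ _).symm
  · rintro ⟨x, hx, y, hy, rfl⟩
    refine ⟨e.symm x, by simpa using hx, e.symm y, by simpa using hy, ?_⟩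
    have h1 := e.toLinearIsometry.angle_map (e.symm x - P) (e.symm y - P)
    rw [EuclideanGeometry.angle, EuclideanGeometry.angle, vsub_eq_sub, vsub_eq_sub, vsub_eq_sub,
      vsub_eq_sub, ← h1]
    simp

lemma isoptic_preimage (e : ℂ ≃ₗᵢ[ℝ] Plane) (S : Set Plane) (α : ℝ) :
    isoptic (e ⁻¹' S) α = e ⁻¹' (isoptic S α) := by
  ext P
  simp only [isoptic, mem_setOf_eq, mem_preimage, sight_preimage]

/-- **Two circular isoptics force a disc.** Let `S` be a compact convex set in the plane.
(1) If there are circles `C₁ ⊆ S_α`, `C₂ ⊆ S_β` for two different angles `α, β ∈ (0, π)`, then `S`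
is a closed disc and `C₁`, `C₂` are concentric with it.
(2) For a closed disc of radius `r > 0` every isoptic `S_α`, `0 < α < π`, is the concentric circle
of radius `r / sin (α / 2)`.
(3) Hence the number of circular isoptics of `S` is never exactly two: there are either at most one
or all of them are circles. -/
theorem result :
    (∀ S : Set Plane, IsCompact S → Convex ℝ S → ∀ (α β R₁ R₂ : ℝ) (c₁ c₂ : Plane),
      α ∈ Ioo 0 π → β ∈ Ioo 0 π → α ≠ β → 0 < R₁ → 0 < R₂ →
      sphere c₁ R₁ ⊆ isoptic S α → sphere c₂ R₂ ⊆ isoptic S β →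
      c₁ = c₂ ∧ ∃ r, 0 < r ∧ S = closedBall c₁ r) ∧
    (∀ (c : Plane) (r α : ℝ), 0 < r → α ∈ Ioo 0 π →
      isoptic (closedBall c r) α = sphere c (r / sin (α / 2))) ∧
    (∀ S : Set Plane, IsCompact S → Convex ℝ S →
      (circularAngles S).Subsingleton ∨ circularAngles S = Ioo 0 π) ∧
    ¬ ∃ S : Set Plane, IsCompact S ∧ Convex ℝ S ∧ (circularAngles S).encard = 2 := by
  set e : ℂ ≃ₗᵢ[ℝ] Plane := Complex.orthonormalBasisOneI.repr with he
  have h1 : ∀ S : Set Plane, IsCompact S → Convex ℝ S → ∀ (α β R₁ R₂ : ℝ) (c₁ c₂ : Plane),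
      α ∈ Ioo 0 π → β ∈ Ioo 0 π → α ≠ β → 0 < R₁ → 0 < R₂ →
      sphere c₁ R₁ ⊆ isoptic S α → sphere c₂ R₂ ⊆ isoptic S β →
      c₁ = c₂ ∧ ∃ r, 0 < r ∧ S = closedBall c₁ r := by
    intro S hS hc α β R₁ R₂ c₁ c₂ hα hβ hne hR₁ hR₂ k₁ k₂
    have hS' : IsCompact (e ⁻¹' S) := e.toHomeomorph.isCompact_preimage.2 hS
    have hc' : Convex ℝ (e ⁻¹' S) := hc.linear_preimage e.toLinearEquiv.toLinearMap
    have l₁ : sphere (e.symm c₁) R₁ ⊆ isoptic (e ⁻¹' S) α := by
      rw [isoptic_preimage, ← e.preimage_sphere]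
      exact preimage_mono k₁
    have l₂ : sphere (e.symm c₂) R₂ ⊆ isoptic (e ⁻¹' S) β := by
      rw [isoptic_preimage, ← e.preimage_sphere]
      exact preimage_mono k₂
    obtain ⟨a, r, hr, b⟩ := disc_of_two hS' hc' hR₁ hR₂ hα.1 hα.2 hβ.1 hβ.2 hne l₁ l₂
    refine ⟨e.symm.injective a, r, hr, ?_⟩
    have := congrArg (fun A => e '' A) b
    simp only [e.image_closedBall, e.apply_symm_apply] at this
    rwa [image_preimage_eq _ e.surjective] at this
  have h2 : ∀ (c : Plane) (r α : ℝ), 0 < r → α ∈ Ioo 0 π →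
      isoptic (closedBall c r) α = sphere c (r / sin (α / 2)) := by
    intro c r α hr hα
    have := isoptic_disc (e.symm c) hr hα.1 hα.2
    rw [← e.preimage_closedBall, isoptic_preimage, ← e.preimage_sphere] at this
    exact (preimage_injective.2 e.surjective) this
  have h3 : ∀ S : Set Plane, IsCompact S → Convex ℝ S →
      (circularAngles S).Subsingleton ∨ circularAngles S = Ioo 0 π := by
    intro S hS hc
    by_cases hsub : (circularAngles S).Subsingleton
    · exact Or.inl hsub
    · right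
      rw [Set.not_subsingleton_iff] at hsub
      obtain ⟨α, hα, β, hβ, hne⟩ := hsub
      obtain ⟨hα1, c₁, R₁, hR₁, hA₁⟩ := hα
      obtain ⟨hβ1, c₂, R₂, hR₂, hA₂⟩ := hβ
      obtain ⟨_, r, hr, hball⟩ := h1 S hS hc α β R₁ R₂ c₁ c₂ hα1 hβ1 hne hR₁ hR₂ hA₁.symm.subset
        hA₂.symm.subset
      apply Subset.antisymm
      · intro γ hγ
        exact hγ.1
      · intro γ hγ
        refine ⟨hγ, c₁, r / sin (γ / 2), ?_, ?_⟩
        · exact div_pos hr (Real.sin_pos_of_pos_of_lt_pi (by linarith [hγ.1]) (by linarith [hγ.2, pi_pos]))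
        · rw [hball]
          exact h2 c₁ r γ hr hγ
  refine ⟨h1, h2, h3, ?_⟩
  rintro ⟨S, hS, hc, hcard⟩
  rcases h3 S hS hc with h | h
  · have := Set.encard_le_one_iff_subsingleton.2 h
    rw [hcard] at this
    exact absurd this (by norm_num)
  · have hinf : (circularAngles S).Infinite := by
      rw [h]
      exact Ioo_infinite pi_pos
    rw [hinf.encard_eq] at hcard
    exact absurd hcard (by simp)

end Pool.Agent.Results.MP_08e0ef_gt.TwoIsoptics
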